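import Mathlib

/-!
Definitions for the question on denominators in a ratio of two basic hypergeometric series.
We work in the field `K = ℚ(a,b,c,q)`, the fraction field of `ℚ[a,b,c,q]`.
-/

open PowerSeries

namespace Pool.Agent.Lib.MP_2e34cc_co

/-- The field `ℚ(a,b,c,q)` of rational functions in four independent indeterminates. -/
abbrev K : Type := FractionRing (MvPolynomial (Fin 4) ℚ)

/-- The indeterminate `a`. -/
noncomputable def a : K := algebraMap (MvPolynomial (Fin 4) ℚ) K (MvPolynomial.X 0)
/-- The indeterminate `b`. -/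
noncomputable def b : K := algebraMap (MvPolynomial (Fin 4) ℚ) K (MvPolynomial.X 1)
/-- The indeterminate `c`. -/
noncomputable def c : K := algebraMap (MvPolynomial (Fin 4) ℚ) K (MvPolynomial.X 2)
/-- The indeterminate `q`. -/
noncomputable def q : K := algebraMap (MvPolynomial (Fin 4) ℚ) K (MvPolynomial.X 3)

/-- The `q`-Pochhammer symbol `(x; q)_n = ∏_{j=0}^{n-1} (1 - x q^j)`. -/
noncomputable def qPoch (x : K) (n : ℕ) : K := ∏ j ∈ Finset.range n, (1 - x * q ^ j)

/-- The basic hypergeometric series `₂φ₁(x, y; w; q, z)` as a formal power series in `z` over `K`. -/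
noncomputable def phi (x y w : K) : K⟦X⟧ :=
  PowerSeries.mk fun n => (qPoch x n * qPoch y n) / (qPoch q n * qPoch w n)

/-- `γ_n(a,b,c)`, the coefficient of `z^n` in
`₂φ₁(aq, bq; cq; q, z) / ₂φ₁(a, b; c; q, z)`. -/
noncomputable def gamma (n : ℕ) : K :=
  PowerSeries.coeff n (phi (a * q) (b * q) (c * q) * (phi a b c)⁻¹)

end Pool.Agent.Lib.MP_2e34cc_co
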