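import Pool.Agent.Lib.MP_2e34cc_co.Defs

/-!
The proof: the series `T = G / ((1 - c) F)` satisfies a `q`-Riccati equation, which gives a recursion
for its coefficients; the floors in the exponents are superadditive.
-/

open PowerSeries

namespace Pool.Agent.Lib.MP_2e34cc_co

/-! ### Non-vanishing facts -/

/-- evaluation point used to show that some elements are nonzero -/
lemma algMap_ne_zero {p : MvPolynomial (Fin 4) ℚ} (v : Fin 4 → ℚ)
    (h : MvPolynomial.eval v p ≠ 0) : algebraMap (MvPolynomial (Fin 4) ℚ) K p ≠ 0 := by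
  intro h0
  have : p = 0 := by
    have hinj := IsFractionRing.injective (MvPolynomial (Fin 4) ℚ) K
    exact hinj (by simpa using h0)
  exact h (by simp [this])

lemma one_sub_c_ne (k : ℕ) : (1 - c * q ^ k : K) ≠ 0 := by
  have : (1 - c * q ^ k : K) = algebraMap (MvPolynomial (Fin 4) ℚ) K
      (1 - MvPolynomial.X 2 * MvPolynomial.X 3 ^ k) := by
    simp [c, q]
  rw [this]
  apply algMap_ne_zero (fun _ => 0)
  simp

lemma one_sub_q_ne (k : ℕ) : (1 - q * q ^ k : K) ≠ 0 := by
  have : (1 - q * q ^ k : K) = algebraMap (MvPolynomial (Fin 4) ℚ) K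
      (1 - MvPolynomial.X 3 * MvPolynomial.X 3 ^ k) := by
    simp [q]
  rw [this]
  apply algMap_ne_zero (fun _ => 0)
  simp

lemma q_ne : (q : K) ≠ 0 := by
  apply algMap_ne_zero (fun _ => 1)
  simp

lemma qPoch_q_ne (n : ℕ) : qPoch q n ≠ 0 :=
  Finset.prod_ne_zero_iff.2 fun k _ => one_sub_q_ne k

lemma qPoch_c_ne (n : ℕ) : qPoch c n ≠ 0 :=
  Finset.prod_ne_zero_iff.2 fun k _ => one_sub_c_ne k

lemma qPoch_zero (x : K) : qPoch x 0 = 1 := by simp [qPoch]

lemma qPoch_succ (x : K) (n : ℕ) : qPoch x (n + 1) = qPoch x n * (1 - x * q ^ n) := by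
  simp [qPoch, Finset.prod_range_succ]

lemma qPoch_succ' (x : K) (n : ℕ) : qPoch x (n + 1) = (1 - x) * qPoch (x * q) n := by
  rw [qPoch, Finset.prod_range_succ', qPoch]
  rw [mul_comm]
  congr 1
  · simp
  · apply Finset.prod_congr rfl
    intro j _
    ring

lemma qPoch_cq_ne (n : ℕ) : qPoch (c * q) n ≠ 0 := by
  intro h
  have := qPoch_c_ne (n + 1)
  rw [qPoch_succ', h] at this
  simp at this

/-! ### The two series -/

/-- `F = ₂φ₁(a,b;c;q,z)` -/
noncomputable def F : K⟦X⟧ := phi a b c
/-- `G = ₂φ₁(aq,bq;cq;q,z)` -/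
noncomputable def G : K⟦X⟧ := phi (a * q) (b * q) (c * q)
/-- `G' = G / (1 - c)` -/
noncomputable def G' : K⟦X⟧ := PowerSeries.C (1 - c)⁻¹ * G

lemma coeff_F (n : ℕ) : PowerSeries.coeff n F = (qPoch a n * qPoch b n) / (qPoch q n * qPoch c n) := by
  simp [F, phi]

lemma coeff_G' (n : ℕ) : PowerSeries.coeff n G' =
    (qPoch (a * q) n * qPoch (b * q) n) / (qPoch q n * qPoch c (n + 1)) := by
  rw [G', PowerSeries.coeff_C_mul, G, phi, PowerSeries.coeff_mk, qPoch_succ']
  have h1 := one_sub_c_ne 0
  rw [pow_zero, mul_one] at h1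
  have h2 := qPoch_q_ne n
  have h3 := qPoch_cq_ne n
  field_simp

lemma F_zero : PowerSeries.constantCoeff F = 1 := by
  rw [← PowerSeries.coeff_zero_eq_constantCoeff_apply, coeff_F]
  simp [qPoch_zero]

lemma F_ne : F ≠ 0 := by
  intro h
  have := F_zero
  rw [h] at this
  simp at this

/-- `F(z) - F(qz) = (1-a)(1-b) z G'(z)` -/
lemma rel1 : F - PowerSeries.rescale q F =
    PowerSeries.C ((1 - a) * (1 - b)) * (PowerSeries.X * G') := by
  ext n
  rw [PowerSeries.coeff_C_mul]
  cases n with
  | zero =>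
    rw [map_sub, PowerSeries.coeff_rescale, PowerSeries.coeff_zero_X_mul]
    simp
  | succ n =>
    rw [PowerSeries.coeff_succ_X_mul, map_sub, PowerSeries.coeff_rescale, coeff_F, coeff_G']
    have h1 := qPoch_q_ne n
    have h2 := qPoch_c_ne (n + 1)
    have h3 := one_sub_q_ne n
    rw [qPoch_succ' a, qPoch_succ' b, qPoch_succ q]
    field_simp
    ring

/-- `G'(z) (1 - (a+b-ab) z) = F(z) + (c - abq z) G'(qz)` -/
lemma rel2 : G' * (1 - PowerSeries.C (a + b - a * b) * PowerSeries.X) =
    F + (PowerSeries.C c - PowerSeries.C (a * b * q) * PowerSeries.X) * PowerSeries.rescale q G' := by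
  have e1 : G' * (1 - PowerSeries.C (a + b - a * b) * PowerSeries.X) =
      G' - PowerSeries.C (a + b - a * b) * (PowerSeries.X * G') := by ring
  have e2 : (PowerSeries.C c - PowerSeries.C (a * b * q) * PowerSeries.X) *
      PowerSeries.rescale q G' = PowerSeries.C c * PowerSeries.rescale q G' -
        PowerSeries.C (a * b * q) * (PowerSeries.X * PowerSeries.rescale q G') := by ring
  rw [e1, e2]
  obtain ⟨s, hs⟩ : ∃ s, s = a + b - a * b := ⟨_, rfl⟩
  rw [← hs]
  ext n
  cases n with
  | zero =>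
    simp only [map_sub, map_add, PowerSeries.coeff_C_mul, PowerSeries.coeff_zero_X_mul, mul_zero,
      sub_zero, PowerSeries.coeff_rescale, coeff_F, coeff_G', pow_zero, one_mul]
    have h1 := one_sub_c_ne 0
    rw [pow_zero, mul_one] at h1
    simp only [qPoch_zero, zero_add, qPoch_succ, pow_zero, mul_one, one_mul]
    field_simp
    ring
  | succ n =>
    simp only [map_sub, map_add, PowerSeries.coeff_C_mul, PowerSeries.coeff_succ_X_mul,
      PowerSeries.coeff_rescale, coeff_F, coeff_G']
    rw [hs]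
    have h1 := qPoch_q_ne n
    have h2 := qPoch_c_ne (n + 1)
    have h3 := one_sub_q_ne n
    have h4 := one_sub_c_ne (n + 1)
    rw [qPoch_succ' a, qPoch_succ' b, qPoch_succ q, qPoch_succ (a * q), qPoch_succ (b * q),
      qPoch_succ c (n + 1)]
    field_simp
    ring

/-- `T = G' / F`, whose coefficients are `γ_n / (1 - c)`. -/
noncomputable def T : K⟦X⟧ := G' * F⁻¹

lemma T_mul_F : T * F = G' := by
  rw [T, mul_assoc, PowerSeries.inv_mul_cancel _ (by rw [F_zero]; exact one_ne_zero), mul_one]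

lemma coeff_T (n : ℕ) : PowerSeries.coeff n T = gamma n / (1 - c) := by
  rw [T, G', mul_assoc, PowerSeries.coeff_C_mul, gamma, div_eq_inv_mul]
  rfl

/-- The Riccati equation
`T(z) (1 - (a+b-ab) z) = 1 + (c - abq z) T(qz) (1 - (1-a)(1-b) z T(z))`. -/
lemma riccati : T * (1 - PowerSeries.C (a + b - a * b) * PowerSeries.X) =
    1 + (PowerSeries.C c - PowerSeries.C (a * b * q) * PowerSeries.X) *
      (PowerSeries.rescale q T * (1 - PowerSeries.C ((1 - a) * (1 - b)) * (PowerSeries.X * T))) := by
  have hF := F_ne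
  apply mul_right_cancel₀ hF
  have h1 : PowerSeries.rescale q F =
      F - PowerSeries.C ((1 - a) * (1 - b)) * (PowerSeries.X * (T * F)) := by
    rw [T_mul_F, ← rel1]; ring
  have h2 : PowerSeries.rescale q G' = PowerSeries.rescale q T * PowerSeries.rescale q F := by
    rw [← T_mul_F, map_mul]
  have h3 := rel2
  rw [h2, h1, ← T_mul_F] at h3
  linear_combination h3

/-- The recursion for the coefficients of `T`. -/
lemma recursion (n : ℕ) : (1 - c * q ^ n) * PowerSeries.coeff n T =
    (if n = 0 then 1 else 0)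
    + (a + b - a * b) * PowerSeries.coeff n (PowerSeries.X * T)
    - (a * b * q) * PowerSeries.coeff n (PowerSeries.X * PowerSeries.rescale q T)
    - c * ((1 - a) * (1 - b)) * PowerSeries.coeff n (PowerSeries.X * (PowerSeries.rescale q T * T))
    + (a * b * q) * ((1 - a) * (1 - b)) *
      PowerSeries.coeff n (PowerSeries.X * (PowerSeries.X * (PowerSeries.rescale q T * T))) := by
  have h := congrArg (PowerSeries.coeff n) riccati
  have e1 : T * (1 - PowerSeries.C (a + b - a * b) * PowerSeries.X) =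
      T - PowerSeries.C (a + b - a * b) * (PowerSeries.X * T) := by ring
  have e2 : 1 + (PowerSeries.C c - PowerSeries.C (a * b * q) * PowerSeries.X) *
      (PowerSeries.rescale q T * (1 - PowerSeries.C ((1 - a) * (1 - b)) * (PowerSeries.X * T))) =
      1 + PowerSeries.C c * PowerSeries.rescale q T
      - PowerSeries.C (a * b * q) * (PowerSeries.X * PowerSeries.rescale q T)
      - PowerSeries.C (c * ((1 - a) * (1 - b))) *
          (PowerSeries.X * (PowerSeries.rescale q T * T))
      + PowerSeries.C (a * b * q * ((1 - a) * (1 - b))) *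
          (PowerSeries.X * (PowerSeries.X * (PowerSeries.rescale q T * T))) := by
    simp only [map_mul]
    ring
  rw [e1, e2] at h
  obtain ⟨s, hs⟩ : ∃ s, s = a + b - a * b := ⟨_, rfl⟩
  rw [← hs] at h ⊢
  simp only [map_sub, map_add, PowerSeries.coeff_C_mul, PowerSeries.coeff_one] at h
  have h5 : PowerSeries.coeff n (PowerSeries.rescale q T) = q ^ n * PowerSeries.coeff n T :=
    PowerSeries.coeff_rescale _ _ _
  rw [h5] at h
  linear_combination h

/-! ### Integrality -/

/-- The subring `ℤ[a,b,c,q]` of `K`. -/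
noncomputable def Pol : Subalgebra ℤ K :=
  (MvPolynomial.aeval (R := ℤ) ![a, b, c, q]).range

lemma a_mem : a ∈ Pol := ⟨MvPolynomial.X 0, by simp⟩
lemma b_mem : b ∈ Pol := ⟨MvPolynomial.X 1, by simp⟩
lemma c_mem : c ∈ Pol := ⟨MvPolynomial.X 2, by simp⟩
lemma q_mem : q ∈ Pol := ⟨MvPolynomial.X 3, by simp⟩

lemma fac_mem (k : ℕ) : (1 - c * q ^ k : K) ∈ Pol :=
  sub_mem (one_mem _) (mul_mem c_mem (pow_mem q_mem _))

/-- `D M N = ∏_{k < M} (1 - c q^k)^⌊N/(k+1)⌋`. -/
noncomputable def D (M N : ℕ) : K := ∏ k ∈ Finset.range M, (1 - c * q ^ k) ^ (N / (k + 1))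

lemma D_stable {M N : ℕ} (h : N ≤ M) : D M N = D N N := by
  obtain ⟨d, rfl⟩ := Nat.exists_eq_add_of_le h
  induction d with
  | zero => rfl
  | succ d ih =>
    rw [D, ← Nat.add_assoc, Finset.prod_range_succ, ← D, ih (by omega)]
    have : N / (N + d + 1) = 0 := Nat.div_eq_of_lt (by omega)
    rw [this, pow_zero, mul_one]

/-- divisibility of the denominators -/
lemma D_dvd {M i j N : ℕ} (h : i + j ≤ N) : ∃ x ∈ Pol, D M N = x * (D M i * D M j) := by
  refine ⟨∏ k ∈ Finset.range M, (1 - c * q ^ k) ^ (N / (k + 1) - (i / (k + 1) + j / (k + 1))), ?_, ?_⟩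
  · exact prod_mem fun k _ => pow_mem (fac_mem k) _
  · rw [D, D, D, ← Finset.prod_mul_distrib, ← Finset.prod_mul_distrib]
    apply Finset.prod_congr rfl
    intro k _
    rw [← pow_add, ← pow_add]
    congr 1
    have h1 : i / (k + 1) + j / (k + 1) ≤ N / (k + 1) := by
      calc i / (k + 1) + j / (k + 1) ≤ (i + j) / (k + 1) := Nat.div_add_div_le_add_div
        _ ≤ N / (k + 1) := Nat.div_le_div_right h
    omega

lemma D_zero (M : ℕ) : D M 0 = 1 := by simp [D]

lemma main (n : ℕ) : D (n + 1) (n + 1) * PowerSeries.coeff n T ∈ Pol := by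
  induction n using Nat.strong_induction_on with
  | _ n ih =>
  have key : D (n + 1) (n + 1) = D n (n + 1) * (1 - c * q ^ n) := by
    rw [D, Finset.prod_range_succ, ← D, Nat.div_self (by omega), pow_one]
  rw [key, mul_assoc, recursion]
  -- the single terms
  have ihM : ∀ i < n, ∀ M, i + 1 ≤ M → D M (i + 1) * PowerSeries.coeff i T ∈ Pol := by
    intro i hi M hM
    rw [D_stable hM]
    exact ih i hi
  have hD : D n (n + 1) ∈ Pol := prod_mem fun k _ => pow_mem (fac_mem k) _
  have t1 : D n (n + 1) * PowerSeries.coeff n (PowerSeries.X * T) ∈ Pol := by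
    cases n with
    | zero => simp
    | succ m =>
      rw [PowerSeries.coeff_succ_X_mul]
      obtain ⟨x, hx, he⟩ := D_dvd (M := m + 1) (i := m + 1) (j := 0) (N := m + 1 + 1) (by omega)
      rw [he, D_zero, mul_one, mul_assoc]
      exact mul_mem hx (ihM m (by omega) (m + 1) le_rfl)
  have t2 : D n (n + 1) * PowerSeries.coeff n (PowerSeries.X * PowerSeries.rescale q T) ∈ Pol := by
    cases n with
    | zero => simp
    | succ m =>
      rw [PowerSeries.coeff_succ_X_mul, PowerSeries.coeff_rescale]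
      rw [PowerSeries.coeff_succ_X_mul] at t1
      have : D (m + 1) (m + 1 + 1) * (q ^ m * PowerSeries.coeff m T) =
        q ^ m * (D (m + 1) (m + 1 + 1) * PowerSeries.coeff m T) := by ring
      rw [this]
      exact mul_mem (pow_mem q_mem _) t1
  -- the quadratic terms
  have quad : ∀ m, m + 1 ≤ n → D n (n + 1) * PowerSeries.coeff m (PowerSeries.rescale q T * T) ∈ Pol := by
    intro m hm
    rw [PowerSeries.coeff_mul, Finset.mul_sum]
    apply sum_mem
    rintro ⟨i, j⟩ hij
    have hij := Finset.HasAntidiagonal.mem_antidiagonal.1 hij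
    simp only at hij ⊢
    rw [PowerSeries.coeff_rescale]
    obtain ⟨x, hx, he⟩ := D_dvd (M := n) (i := i + 1) (j := j + 1) (N := n + 1) (by omega)
    rw [he]
    have : x * (D n (i + 1) * D n (j + 1)) *
        (q ^ i * PowerSeries.coeff i T * PowerSeries.coeff j T) =
        x * q ^ i * ((D n (i + 1) * PowerSeries.coeff i T) * (D n (j + 1) * PowerSeries.coeff j T)) := by
      ring
    rw [this]
    exact mul_mem (mul_mem hx (pow_mem q_mem _))
      (mul_mem (ihM i (by omega) n (by omega)) (ihM j (by omega) n (by omega)))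
  have t3 : D n (n + 1) * PowerSeries.coeff n (PowerSeries.X * (PowerSeries.rescale q T * T)) ∈ Pol := by
    cases n with
    | zero => simp
    | succ m =>
      rw [PowerSeries.coeff_succ_X_mul]
      exact quad m le_rfl
  have t4 : D n (n + 1) * PowerSeries.coeff n
      (PowerSeries.X * (PowerSeries.X * (PowerSeries.rescale q T * T))) ∈ Pol := by
    cases n with
    | zero => simp
    | succ m =>
      rw [PowerSeries.coeff_succ_X_mul]
      cases m with
      | zero => simp
      | succ l =>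
        rw [PowerSeries.coeff_succ_X_mul]
        exact quad l (by omega)
  have t0 : (if n = 0 then (1 : K) else 0) ∈ Pol := by
    split_ifs
    · exact one_mem _
    · exact zero_mem _
  have hu : (1 - a) * (1 - b) ∈ Pol :=
    mul_mem (sub_mem (one_mem _) a_mem) (sub_mem (one_mem _) b_mem)
  have habq : a * b * q ∈ Pol := mul_mem (mul_mem a_mem b_mem) q_mem
  have hs : a + b - a * b ∈ Pol := sub_mem (add_mem a_mem b_mem) (mul_mem a_mem b_mem)
  have := add_mem (sub_mem (sub_mem (add_mem (mul_mem hD t0) (mul_mem hs t1)) (mul_mem habq t2))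
    (mul_mem (mul_mem c_mem hu) t3)) (mul_mem (mul_mem habq hu) t4)
  convert this using 1
  ring

end Pool.Agent.Lib.MP_2e34cc_co
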